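import Mathlib
import Pool.Agent.N325.FC.Stm

/-!
# FC/UP: some point of `[0, L]` has small Riesz potential

For any `N` points of the line and any `L > 0` there is a point `z` of `[0, L]` with
`∑ |z - x_i|^(-s) ≤ 2 ∑_j (j + 1/2)^(-s) (N / L)^s`.
-/

set_option autoImplicit false
open Filter Topology MeasureTheory
open Pool.Agent.N325.FC

namespace Pool.Agent.N364.FC

/-- tangent line inequality for `t ^ (-s)` -/
theorem tangent (s u v : ℝ) (hs : 0 < s) (hu : 0 < u) (hv : 0 < v) :
    u ^ (-s) + s * u ^ (-s - 1) * (u - v) ≤ v ^ (-s) := by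
  have h1 : 1 - s * (v / u - 1) ≤ (v / u) ^ (-s) := by
    rw [Real.rpow_def_of_pos (by positivity)]
    have h2 := Real.add_one_le_exp (Real.log (v / u) * -s)
    have h3 := Real.log_le_sub_one_of_pos (show 0 < v / u by positivity)
    nlinarith
  have h4 : v ^ (-s) = u ^ (-s) * (v / u) ^ (-s) := by
    rw [← Real.mul_rpow hu.le (by positivity)]
    congr 1
    field_simp
  have h5 : u ^ (-s - 1) = u ^ (-s) / u := by
    rw [Real.rpow_sub_one hu.ne']
  rw [h4, h5]
  have h6 : 0 < u ^ (-s) := by positivity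
  have h7 : u ^ (-s) + s * (u ^ (-s) / u) * (u - v) = u ^ (-s) * (1 - s * (v / u - 1)) := by
    field_simp
    ring
  rw [h7]
  exact mul_le_mul_of_nonneg_left h1 h6.le

theorem abel (n : ℕ) (w d : ℕ → ℝ) (hw : ∀ i, i < n → 0 ≤ w i)
    (hmono : ∀ i, i + 1 < n → w (i + 1) ≤ w i)
    (hD : ∀ j, j ≤ n → 0 ≤ ∑ i ∈ Finset.range j, d i) :
    0 ≤ ∑ i ∈ Finset.range n, w i * d i := by
  have key : ∀ k, k < n → w k * ∑ i ∈ Finset.range (k + 1), d i ≤
      ∑ i ∈ Finset.range (k + 1), w i * d i := by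
    intro k
    induction k with
    | zero => intro _; simp
    | succ k ih =>
      intro hk
      rw [Finset.sum_range_succ _ (k + 1), Finset.sum_range_succ (fun i => w i * d i) (k + 1)]
      have h1 := ih (by omega)
      have h2 := hmono k hk
      have h3 := hD (k + 1) (by omega)
      nlinarith [mul_le_mul_of_nonneg_right h2 h3]
  rcases n with _ | m
  · simp
  · exact le_trans (mul_nonneg (hw m (by omega)) (hD (m + 1) le_rfl)) (key m (by omega))

theorem maj (s : ℝ) (hs : 0 < s) (n : ℕ) (u v : ℕ → ℝ) (hu : ∀ i, i < n → 0 < u i)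
    (hv : ∀ i, i < n → 0 < v i) (hmono : ∀ i, i + 1 < n → u i ≤ u (i + 1))
    (hD : ∀ j, j ≤ n → 0 ≤ ∑ i ∈ Finset.range j, (u i - v i)) :
    ∑ i ∈ Finset.range n, (u i) ^ (-s) ≤ ∑ i ∈ Finset.range n, (v i) ^ (-s) := by
  have h1 := abel n (fun i => s * (u i) ^ (-s - 1)) (fun i => u i - v i)
    (fun i hi => by have := hu i hi; positivity)
    (fun i hi => by
      apply mul_le_mul_of_nonneg_left _ hs.le
      exact Real.rpow_le_rpow_of_nonpos (hu i (by omega)) (hmono i hi) (by linarith)) hD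
  have h2 : ∑ i ∈ Finset.range n, ((u i) ^ (-s) + s * (u i) ^ (-s - 1) * (u i - v i)) ≤
      ∑ i ∈ Finset.range n, (v i) ^ (-s) :=
    Finset.sum_le_sum fun i hi => tangent s _ _ hs (hu i (Finset.mem_range.mp hi))
      (hv i (Finset.mem_range.mp hi))
  rw [Finset.sum_add_distrib] at h2
  linarith

theorem summ (s : ℝ) (hs : 1 < s) : Summable (fun j : ℕ => ((j : ℝ) + 1 / 2) ^ (-s)) := by
  have h1 : Summable (fun j : ℕ => ((j + 1 : ℕ) : ℝ) ^ (-s)) :=
    (summable_nat_add_iff 1).mpr (Real.summable_nat_rpow.mpr (by linarith))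
  have h2 := h1.mul_left ((1 / 2 : ℝ) ^ (-s))
  refine Summable.of_nonneg_of_le (fun j => by positivity) (fun j => ?_) h2
  rw [← Real.mul_rpow (by norm_num) (by positivity)]
  apply Real.rpow_le_rpow_of_nonpos (by positivity) _ (by linarith)
  push_cast
  have : (0 : ℝ) ≤ j := by positivity
  linarith

theorem sumle (s : ℝ) (hs : 1 < s) (h : ℝ) (hh : 0 < h) (m : ℕ) :
    ∑ i ∈ Finset.range m, (((i : ℝ) + 1 / 2) * h) ^ (-s) ≤
      (∑' j : ℕ, ((j : ℝ) + 1 / 2) ^ (-s)) * h ^ (-s) := by
  have h1 : ∀ i ∈ Finset.range m, (((i : ℝ) + 1 / 2) * h) ^ (-s) =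
      ((i : ℝ) + 1 / 2) ^ (-s) * h ^ (-s) := by
    intro i _
    exact Real.mul_rpow (by positivity) hh.le
  rw [Finset.sum_congr rfl h1, ← Finset.sum_mul]
  apply mul_le_mul_of_nonneg_right _ (by positivity)
  exact (summ s hs).sum_le_tsum _ (fun j _ => by positivity)

theorem upX (s : ℝ) (hs : 1 < s) (N : ℕ) (X : ℕ → ℝ)
    (hX : ∀ i j, i ≤ j → j < N → X i ≤ X j) (h : ℝ) (hh : 0 < h) :
    ∃ k : ℕ, k ≤ N ∧ (∀ i, i < N → X i ≠ (k : ℝ) * h) ∧
      ∑ i ∈ Finset.range N, |(k : ℝ) * h - X i| ^ (-s) ≤ Cc s * h ^ (-s) := by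
  set S : ℕ → ℝ := fun j => ∑ i ∈ Finset.range j, (X i - ((i : ℝ) + 1 / 2) * h) with hS
  obtain ⟨k, hk, hmin⟩ := Finset.exists_min_image (Finset.range (N + 1)) S ⟨0, by simp⟩
  have hkN : k ≤ N := by
    have := Finset.mem_range.mp hk
    omega
  have hmin' : ∀ j, j ≤ N → S k ≤ S j := fun j hj => hmin j (Finset.mem_range.mpr (by omega))
  -- right part
  have hR : ∀ j, ∑ i ∈ Finset.range j, ((X (k + i) - (k : ℝ) * h) - ((i : ℝ) + 1 / 2) * h) =
      S (k + j) - S k := by
    intro j
    rw [hS]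
    simp only
    rw [Finset.sum_range_add, add_sub_cancel_left]
    apply Finset.sum_congr rfl
    intro i _
    push_cast
    ring
  have hL : ∀ j, j ≤ k →
      ∑ i ∈ Finset.range j, (((k : ℝ) * h - X (k - 1 - i)) - ((i : ℝ) + 1 / 2) * h) =
      S (k - j) - S k := by
    intro j
    induction j with
    | zero => intro _; simp
    | succ j ih =>
      intro hj
      rw [Finset.sum_range_succ, ih (by omega)]
      have h1 : k - j = (k - (j + 1)) + 1 := by omega
      have h2 : S (k - j) = S (k - (j + 1)) +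
          (X (k - (j + 1)) - (((k - (j + 1) : ℕ) : ℝ) + 1 / 2) * h) := by
        rw [h1, hS]
        simp only
        rw [Finset.sum_range_succ]
      have h3 : k - 1 - j = k - (j + 1) := by omega
      have h4 : ((k - (j + 1) : ℕ) : ℝ) = (k : ℝ) - ((j : ℝ) + 1) := by
        rw [Nat.cast_sub hj]
        push_cast
        ring
      rw [h2, h3, h4]
      ring
  have hRpos : ∀ i, i < N - k → 0 < X (k + i) - (k : ℝ) * h := by
    intro i hi
    have h1 := hR 1
    have h2 := hmin' (k + 1) (by omega)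
    have h3 := hX k (k + i) (by omega) (by omega)
    simp only [Finset.range_one, Finset.sum_singleton, add_zero, Nat.cast_zero, zero_add] at h1
    linarith
  have hLpos : ∀ i, i < k → 0 < (k : ℝ) * h - X (k - 1 - i) := by
    intro i hi
    have h1 := hL 1 (by omega)
    have h2 := hmin' (k - 1) (by omega)
    have h3 := hX (k - 1 - i) (k - 1) (by omega) (by omega)
    simp only [Finset.range_one, Finset.sum_singleton, Nat.cast_zero, zero_add,
      Nat.sub_zero] at h1
    linarith
  have hv : ∀ i : ℕ, 0 < ((i : ℝ) + 1 / 2) * h := fun i => by positivity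
  have hRm := maj s (by linarith) (N - k) (fun i => X (k + i) - (k : ℝ) * h)
    (fun i => ((i : ℝ) + 1 / 2) * h) hRpos (fun i _ => hv i)
    (fun i hi => by
      have := hX (k + i) (k + (i + 1)) (by omega) (by omega)
      linarith)
    (fun j hj => by
      have h1 := hR j
      have h2 := hmin' (k + j) (by omega)
      linarith)
  have hLm := maj s (by linarith) k (fun i => (k : ℝ) * h - X (k - 1 - i))
    (fun i => ((i : ℝ) + 1 / 2) * h) hLpos (fun i _ => hv i)
    (fun i hi => by
      have := hX (k - 1 - (i + 1)) (k - 1 - i) (by omega) (by omega)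
      linarith)
    (fun j hj => by
      have h1 := hL j hj
      have h2 := hmin' (k - j) (by omega)
      linarith)
  refine ⟨k, hkN, ?_, ?_⟩
  · intro i hi heq
    by_cases hik : i < k
    · have := hLpos (k - 1 - i) (by omega)
      rw [show k - 1 - (k - 1 - i) = i by omega, heq] at this
      linarith
    · have := hRpos (i - k) (by omega)
      rw [show k + (i - k) = i by omega, heq] at this
      linarith
  · have hsplit : ∑ i ∈ Finset.range N, |(k : ℝ) * h - X i| ^ (-s) =
        ∑ i ∈ Finset.range k, |(k : ℝ) * h - X i| ^ (-s) +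
        ∑ i ∈ Finset.range (N - k), |(k : ℝ) * h - X (k + i)| ^ (-s) := by
      conv_lhs => rw [show N = k + (N - k) by omega]
      rw [Finset.sum_range_add]
    have hleft : ∑ i ∈ Finset.range k, |(k : ℝ) * h - X i| ^ (-s) =
        ∑ i ∈ Finset.range k, ((k : ℝ) * h - X (k - 1 - i)) ^ (-s) := by
      rw [← Finset.sum_range_reflect]
      apply Finset.sum_congr rfl
      intro i hi
      rw [abs_of_pos (hLpos i (Finset.mem_range.mp hi))]
    have hright : ∑ i ∈ Finset.range (N - k), |(k : ℝ) * h - X (k + i)| ^ (-s) =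
        ∑ i ∈ Finset.range (N - k), (X (k + i) - (k : ℝ) * h) ^ (-s) := by
      apply Finset.sum_congr rfl
      intro i hi
      rw [abs_sub_comm, abs_of_pos (hRpos i (Finset.mem_range.mp hi))]
    rw [hsplit, hleft, hright]
    have e1 := sumle s hs h hh k
    have e2 := sumle s hs h hh (N - k)
    have e3 : Cc s * h ^ (-s) = (∑' j : ℕ, ((j : ℝ) + 1 / 2) ^ (-s)) * h ^ (-s) +
        (∑' j : ℕ, ((j : ℝ) + 1 / 2) ^ (-s)) * h ^ (-s) := by
      unfold Cc
      ring
    rw [e3]
    linarith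

/-- **FC/UP.** -/
theorem up : StmUP := by
  intro s hs N hN x L hL
  have hNpos : (0 : ℝ) < N := by exact_mod_cast hN
  set h : ℝ := L / N with hh
  have hhpos : 0 < h := by positivity
  set σ := Tuple.sort x with hσ
  have hmono : Monotone (x ∘ σ) := Tuple.monotone_sort x
  set X : ℕ → ℝ := fun i => if hi : i < N then x (σ ⟨i, hi⟩) else 0 with hXdef
  have hX : ∀ i j, i ≤ j → j < N → X i ≤ X j := by
    intro i j hij hj
    have hi : i < N := by omega
    simp only [hXdef, hi, hj, dif_pos]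
    exact hmono (show (⟨i, hi⟩ : Fin N) ≤ ⟨j, hj⟩ from hij)
  obtain ⟨k, hkN, hne, hsum⟩ := upX s hs N X hX h hhpos
  refine ⟨(k : ℝ) * h, ⟨by positivity, ?_⟩, ?_, ?_⟩
  · have h1 : (k : ℝ) ≤ N := by exact_mod_cast hkN
    calc (k : ℝ) * h ≤ N * h := mul_le_mul_of_nonneg_right h1 hhpos.le
      _ = L := by rw [hh]; field_simp
  · intro i heq
    have h1 := hne (σ.symm i) (σ.symm i).isLt
    apply h1
    simp only [hXdef, Fin.isLt, dif_pos, Fin.eta, Equiv.apply_symm_apply]
    exact heq
  · have e1 : ∑ i, |(k : ℝ) * h - x i| ^ (-s) =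
        ∑ i ∈ Finset.range N, |(k : ℝ) * h - X i| ^ (-s) := by
      rw [← Equiv.sum_comp σ, ← Fin.sum_univ_eq_sum_range (fun i => |(k : ℝ) * h - X i| ^ (-s)) N]
      apply Finset.sum_congr rfl
      intro i _
      simp only [hXdef, Fin.isLt, dif_pos, Fin.eta]
    rw [e1]
    have e2 : ((N : ℝ) / L) ^ s = h ^ (-s) := by
      rw [hh, Real.rpow_neg (by positivity), ← Real.inv_rpow (by positivity), inv_div]
    rw [e2]
    exact hsum

end Pool.Agent.N364.FC
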